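import Mathlib

/-!
# Interpolation for partitions into indivisible dominating sets

For a finite ground set and an upward closed family `T` of nonempty sets (for us: the dominating
sets of a graph) we show that the set of orders of partitions into indivisible members of `T` is an
interval.  The main point: write `nu X` for the largest number of disjoint members of `T` in `X`.
If `Z` and its complement are both in `T`, then there is a partition of order
`nu Z + nu Zᶜ`, and moving one element across changes this sum by at most one.
-/

set_option autoImplicit false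

namespace Pool.Agent.Results.MP_a3f2aa_co.Interpolation

open Finset

section General

variable {V : Type} [DecidableEq V]

/-- indivisible members of a family -/
def Ind (T : Finset V → Prop) (X : Finset V) : Prop :=
  T X ∧ ∀ A B : Finset V, Disjoint A B → A ∪ B = X → T A → T B → False

/-- partitions of a set into a given number of indivisible members -/
inductive Part (T : Finset V → Prop) : Finset V → ℕ → Prop
  | zero : Part T ∅ 0
  | succ {D X : Finset V} {k : ℕ} : Ind T D → Disjoint D X → Part T X k → Part T (D ∪ X) (k + 1)

/-- families of disjoint members inside a set -/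
inductive Pack (T : Finset V → Prop) : Finset V → ℕ → Prop
  | zero (X : Finset V) : Pack T X 0
  | succ {D X : Finset V} {k : ℕ} : T D → D ⊆ X → Pack T (X \ D) k → Pack T X (k + 1)

variable {T : Finset V → Prop}

theorem Pack.mono {X : Finset V} {k : ℕ} (h : Pack T X k) : ∀ {Y : Finset V}, X ⊆ Y → Pack T Y k := by
  induction h with
  | zero X => intro Y _; exact Pack.zero Y
  | succ hD hDX _ ih =>
    intro Y hY
    exact Pack.succ hD (hDX.trans hY) (ih (sdiff_subset_sdiff hY (le_refl _)))

theorem Pack.le_card (h0 : ¬ T ∅) {X : Finset V} {k : ℕ} (h : Pack T X k) : k ≤ X.card := by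
  induction h with
  | zero X => exact Nat.zero_le _
  | @succ D X k hD hDX _ ih =>
    have hne : D.Nonempty := by
      rw [nonempty_iff_ne_empty]
      rintro rfl
      exact h0 hD
    have h1 : (X \ D).card = X.card - D.card := card_sdiff_of_subset hDX
    have h2 : D.card ≤ X.card := card_le_card hDX
    have h3 : 0 < D.card := hne.card_pos
    omega

theorem Pack.insert {X : Finset V} {k : ℕ} {y : V} (h : Pack T (insert y X) (k + 1)) :
    Pack T X k := by
  induction k generalizing X with
  | zero => exact Pack.zero X
  | succ k ih =>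
    cases h with
    | @succ D _ _ hD hDX hP =>
      by_cases hy : y ∈ D
      · refine hP.mono ?_
        intro z hz
        rw [mem_sdiff, mem_insert] at hz
        rcases hz.1 with rfl | h
        · exact absurd hy hz.2
        · exact h
      · have hsub : D ⊆ X := by
          intro z hz
          rcases mem_insert.1 (hDX hz) with rfl | h
          · exact absurd hz hy
          · exact h
        have he : (Insert.insert y X : Finset V) \ D = Insert.insert y (X \ D) := by
          rw [insert_sdiff_of_notMem _ hy]
        rw [he] at hP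
        exact Pack.succ hD hsub (ih hP)

theorem Pack.two_of_split (hup : ∀ X Y : Finset V, T X → X ⊆ Y → T Y) {A B X : Finset V}
    (hd : Disjoint A B) (hAB : A ∪ B = X) (hA : T A) (hB : T B) : Pack T X 2 := by
  subst hAB
  refine Pack.succ hA subset_union_left (Pack.succ (hup _ _ hB ?_) (le_refl _) (Pack.zero _))
  intro z hz
  rw [mem_sdiff, mem_union]
  exact ⟨Or.inr hz, fun h => disjoint_left.1 hd h hz⟩

theorem Part.toPack {X : Finset V} {k : ℕ} (h : Part T X k) : Pack T X k := by
  induction h with
  | zero => exact Pack.zero _
  | @succ D X k hD hd _ ih =>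
    refine Pack.succ hD.1 subset_union_left (ih.mono ?_)
    intro z hz
    rw [mem_sdiff, mem_union]
    exact ⟨Or.inr hz, fun h => disjoint_left.1 hd h hz⟩

theorem Part.union {X : Finset V} {k : ℕ} (h : Part T X k) :
    ∀ {Y : Finset V} {l : ℕ}, Part T Y l → Disjoint X Y → Part T (X ∪ Y) (k + l) := by
  induction h with
  | zero => intro Y l hY _; simpa using hY
  | @succ D X k hD hd _ ih =>
    intro Y l hY hdis
    rw [disjoint_union_left] at hdis
    have h := Part.succ hD (disjoint_union_right.2 ⟨hd, hdis.1⟩) (ih hY hdis.2)
    rw [← union_assoc] at h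
    have e : k + l + 1 = k + 1 + l := by omega
    rw [← e]
    exact h

theorem Part.of_T (hup : ∀ X Y : Finset V, T X → X ⊆ Y → T Y) {X : Finset V} {k : ℕ}
    (h : Part T X (k + 1)) : T X := by
  cases h with
  | succ hD _ _ => exact hup _ _ hD.1 subset_union_left

/-- a maximum family of disjoint members gives a partition into indivisible members -/
theorem part_of_pack (hup : ∀ X Y : Finset V, T X → X ⊆ Y → T Y) :
    ∀ (r : ℕ) (X : Finset V), Pack T X (r + 1) → ¬ Pack T X (r + 2) → Part T X (r + 1) := by
  intro r
  induction r with
  | zero =>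
    intro X h1 h2
    cases h1 with
    | @succ D _ _ hD hDX _ =>
      have hX : Ind T X := ⟨hup _ _ hD hDX, fun A B hd hAB hA hB =>
        h2 (Pack.two_of_split hup hd hAB hA hB)⟩
      have := Part.succ hX (disjoint_empty_right X) (Part.zero (T := T))
      simpa using this
  | succ r ih =>
    intro X h1 h2
    cases h1 with
    | @succ D _ _ hD hDX hP =>
      have h3 : ¬ Pack T (X \ D) (r + 2) := fun h => h2 (Pack.succ hD hDX h)
      have h4 := ih _ hP h3
      have hDi : Ind T D := by
        refine ⟨hD, fun A B hd hAB hA hB => h2 ?_⟩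
        refine Pack.succ hA (subset_union_left.trans (hAB.le.trans hDX)) ?_
        have hB' : B ⊆ X \ A := by
          intro z hz
          rw [mem_sdiff]
          exact ⟨hDX (hAB ▸ mem_union_right _ hz), fun h => disjoint_left.1 hd h hz⟩
        refine Pack.succ hB hB' (hP.mono ?_)
        intro z hz
        rw [mem_sdiff] at hz
        rw [mem_sdiff, mem_sdiff]
        refine ⟨⟨hz.1, fun h => hz.2 (hAB ▸ mem_union_left _ h)⟩,
          fun h => hz.2 (hAB ▸ mem_union_right _ h)⟩
      have h5 := Part.succ hDi disjoint_sdiff h4
      rwa [union_sdiff_of_subset hDX] at h5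

open Classical in
/-- largest number of disjoint members inside `X` -/
noncomputable def nu (T : Finset V → Prop) (X : Finset V) : ℕ :=
  Nat.findGreatest (fun m => Pack T X m) X.card

theorem pack_nu (X : Finset V) : Pack T X (nu T X) := by
  classical
  unfold nu
  exact Nat.findGreatest_spec (P := fun m => Pack T X m) (Nat.zero_le _) (Pack.zero X)

theorem le_nu (h0 : ¬ T ∅) {X : Finset V} {k : ℕ} (h : Pack T X k) : k ≤ nu T X := by
  classical
  unfold nu
  exact Nat.le_findGreatest (h.le_card h0) h

theorem one_le_nu (h0 : ¬ T ∅) {X : Finset V} (h : T X) : 1 ≤ nu T X :=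
  le_nu h0 (Pack.succ h (le_refl _) (Pack.zero _))

theorem part_nu (h0 : ¬ T ∅) (hup : ∀ X Y : Finset V, T X → X ⊆ Y → T Y) {X : Finset V}
    (h : T X) : Part T X (nu T X) := by
  have h1 := one_le_nu h0 h
  obtain ⟨r, hr⟩ : ∃ r, nu T X = r + 1 := ⟨nu T X - 1, by omega⟩
  rw [hr]
  refine part_of_pack hup r X (hr ▸ pack_nu X) ?_
  intro h2
  have := le_nu h0 h2
  omega

theorem nu_mono (h0 : ¬ T ∅) {X Y : Finset V} (h : X ⊆ Y) : nu T X ≤ nu T Y :=
  le_nu h0 ((pack_nu X).mono h)

theorem nu_insert (h0 : ¬ T ∅) (X : Finset V) (y : V) : nu T (insert y X) ≤ nu T X + 1 := by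
  rcases Nat.eq_zero_or_pos (nu T (insert y X)) with h | h
  · omega
  · obtain ⟨r, hr⟩ : ∃ r, nu T (insert y X) = r + 1 := ⟨nu T (insert y X) - 1, by omega⟩
    have h1 : Pack T (insert y X) (r + 1) := hr ▸ pack_nu _
    have := le_nu h0 h1.insert
    omega

theorem nu_le_erase (h0 : ¬ T ∅) (X : Finset V) (y : V) : nu T X ≤ nu T (X.erase y) + 1 := by
  refine le_trans (nu_mono h0 ?_) (nu_insert h0 (X.erase y) y)
  intro z hz
  rw [mem_insert, mem_erase]
  by_cases h : z = y
  · exact Or.inl h
  · exact Or.inr ⟨h, hz⟩

/-- if every member inside `X` contains `x` then at most one member fits -/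
theorem nu_le_one (hup : ∀ X Y : Finset V, T X → X ⊆ Y → T Y) {X : Finset V} {x : V}
    (h : ¬ T (X.erase x)) : nu T X ≤ 1 := by
  by_contra hc
  obtain ⟨r, hr⟩ : ∃ r, nu T X = r + 2 := ⟨nu T X - 2, by omega⟩
  have h1 : Pack T X (r + 2) := hr ▸ pack_nu _
  cases h1 with
  | @succ D _ _ hD hDX hP =>
    cases hP with
    | @succ E _ _ hE hEX _ =>
      by_cases hx : x ∈ D
      · refine h (hup E _ hE ?_)
        intro z hz
        have h2 := mem_sdiff.1 (hEX hz)
        rw [mem_erase]
        exact ⟨fun e => h2.2 (e ▸ hx), h2.1⟩
      · refine h (hup D _ hD ?_)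
        intro z hz
        rw [mem_erase]
        exact ⟨fun e => hx (e ▸ hz), hDX hz⟩

theorem nu_ind (h0 : ¬ T ∅) (hup : ∀ X Y : Finset V, T X → X ⊆ Y → T Y) {X : Finset V}
    (h : Ind T X) : nu T X = 1 := by
  have h1 := one_le_nu h0 h.1
  by_contra hc
  obtain ⟨r, hr⟩ : ∃ r, nu T X = r + 2 := ⟨nu T X - 2, by omega⟩
  have h1 : Pack T X (r + 2) := hr ▸ pack_nu _
  cases h1 with
  | @succ D _ _ hD hDX hP =>
    cases hP with
    | @succ E _ _ hE hEX _ =>
      exact h.2 D (X \ D) disjoint_sdiff (union_sdiff_of_subset hDX) hD (hup _ _ hE hEX)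

/-- sets which belong to the family together with their complement in `X` -/
def Two (T : Finset V → Prop) (X Z : Finset V) : Prop := Z ⊆ X ∧ T Z ∧ T (X \ Z)

/-- the order of the finest partition refining `Z`, `X \ Z` -/
noncomputable def sig (T : Finset V → Prop) (X Z : Finset V) : ℕ := nu T Z + nu T (X \ Z)

theorem part_sig (h0 : ¬ T ∅) (hup : ∀ X Y : Finset V, T X → X ⊆ Y → T Y) {X Z : Finset V}
    (h : Two T X Z) : Part T X (sig T X Z) := by
  have := (part_nu h0 hup h.2.1).union (part_nu h0 hup h.2.2) disjoint_sdiff
  rwa [union_sdiff_of_subset h.1] at this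

theorem sdiff_erase' {X Z : Finset V} {x : V} (hZ : Z ⊆ X) (hx : x ∈ Z) :
    X \ Z.erase x = insert x (X \ Z) := by
  ext z
  simp only [mem_sdiff, mem_erase, mem_insert]
  constructor
  · rintro ⟨h1, h2⟩
    by_cases h : z = x
    · exact Or.inl h
    · exact Or.inr ⟨h1, fun h3 => h2 ⟨h, h3⟩⟩
  · rintro (rfl | ⟨h1, h2⟩)
    · exact ⟨hZ hx, fun h => h.1 rfl⟩
    · exact ⟨h1, fun h => h2 h.2⟩

theorem sdiff_insert' {X Z : Finset V} {x : V} :
    X \ insert x Z = (X \ Z).erase x := by
  ext z
  simp only [mem_sdiff, mem_erase, mem_insert]
  tauto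

/-- effect of removing one element -/
theorem sig_erase (h0 : ¬ T ∅) {X Z : Finset V} {x : V} (hZ : Z ⊆ X) (hx : x ∈ Z) :
    sig T X (Z.erase x) ≤ sig T X Z + 1 ∧ sig T X Z ≤ sig T X (Z.erase x) + 1 := by
  unfold sig
  rw [sdiff_erase' hZ hx]
  have h1 := nu_insert h0 (X \ Z) x
  have h2 := nu_le_erase h0 Z x
  have h3 : nu T (Z.erase x) ≤ nu T Z := nu_mono h0 (erase_subset _ _)
  have h4 : nu T (X \ Z) ≤ nu T (insert x (X \ Z)) := nu_mono h0 (subset_insert _ _)
  omega

theorem sig_insert (h0 : ¬ T ∅) {X Z : Finset V} {x : V} :
    sig T X (insert x Z) ≤ sig T X Z + 1 ∧ sig T X Z ≤ sig T X (insert x Z) + 1 := by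
  unfold sig
  rw [sdiff_insert']
  have h1 := nu_insert h0 Z x
  have h2 := nu_le_erase h0 (X \ Z) x
  have h3 : nu T ((X \ Z).erase x) ≤ nu T (X \ Z) := nu_mono h0 (erase_subset _ _)
  have h4 : nu T Z ≤ nu T (insert x Z) := nu_mono h0 (subset_insert _ _)
  omega

/-- the two classes of bipartitions cannot both be inhabited when `k` is not an order -/
theorem no_pair (h0 : ¬ T ∅) (hup : ∀ X Y : Finset V, T X → X ⊆ Y → T Y) {X : Finset V} {k : ℕ}
    (hk3 : 2 ≤ k) (hk : ¬ Part T X k) :
    ∀ (d : ℕ) (Z W : Finset V), Two T X Z → Two T X W → sig T X Z < k → k < sig T X W →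
      (Z \ W).card + (W \ Z).card = d → False := by
  intro d
  induction d with
  | zero =>
    intro Z W _ _ h1 h2 h3
    have e1 : Z \ W = ∅ := card_eq_zero.1 (by omega)
    have e2 : W \ Z = ∅ := card_eq_zero.1 (by omega)
    have e : Z = W := Subset.antisymm (sdiff_eq_empty_iff_subset.1 e1)
      (sdiff_eq_empty_iff_subset.1 e2)
    subst e
    omega
  | succ d ih =>
    intro Z W hZ hW h1 h2 h3
    have key : ∀ Y, Two T X Y → sig T X Y ≠ k := fun Y hY he =>
      hk (he ▸ part_sig h0 hup hY)
    rcases (Z \ W).eq_empty_or_nonempty with e | ⟨y, hy⟩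
    · -- Z ⊆ W
      have hsub : Z ⊆ W := sdiff_eq_empty_iff_subset.1 e
      have hne : (W \ Z).Nonempty := by
        rw [← card_pos]
        rw [e, card_empty] at h3
        omega
      obtain ⟨x, hx⟩ := hne
      have hx' := mem_sdiff.1 hx
      have hT : Two T X (insert x Z) := by
        refine ⟨?_, hup _ _ hZ.2.1 (subset_insert _ _), hup _ _ hW.2.2 ?_⟩
        · intro z hz
          rcases mem_insert.1 hz with rfl | hz
          · exact hW.1 hx'.1
          · exact hZ.1 hz
        · refine sdiff_subset_sdiff (le_refl _) ?_
          intro z hz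
          rcases mem_insert.1 hz with rfl | hz
          · exact hx'.1
          · exact hsub hz
      have h4 := (sig_insert (T := T) h0 (X := X) (Z := Z) (x := x)).1
      have h5 := key _ hT
      refine ih (insert x Z) W hT hW (by omega) h2 ?_
      have h6 : insert x Z \ W = Z \ W := by
        rw [insert_sdiff_of_mem _ hx'.1]
      have h7 : W \ insert x Z = (W \ Z).erase x := sdiff_insert'
      rw [h6, h7, card_erase_of_mem hx]
      have : 0 < (W \ Z).card := card_pos.2 ⟨x, hx⟩
      omega
    · have hy' := mem_sdiff.1 hy
      rcases (W \ Z).eq_empty_or_nonempty with e | ⟨x, hx⟩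
      · -- W ⊆ Z
        have hsub : W ⊆ Z := sdiff_eq_empty_iff_subset.1 e
        have hT : Two T X (Z.erase y) := by
          refine ⟨(erase_subset _ _).trans hZ.1, hup _ _ hW.2.1 ?_, hup _ _ hZ.2.2 ?_⟩
          · intro z hz
            rw [mem_erase]
            exact ⟨fun e => hy'.2 (e ▸ hz), hsub hz⟩
          · exact sdiff_subset_sdiff (le_refl _) (erase_subset _ _)
        have h4 := (sig_erase (T := T) h0 hZ.1 hy'.1).1
        have h5 := key _ hT
        refine ih (Z.erase y) W hT hW (by omega) h2 ?_
        have h6 : Z.erase y \ W = (Z \ W).erase y := by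
          ext z
          simp only [mem_sdiff, mem_erase]
          tauto
        have h7 : W \ Z.erase y = W \ Z := by
          ext z
          simp only [mem_sdiff, mem_erase]
          constructor
          · rintro ⟨ha, hb⟩
            exact ⟨ha, fun hc => hb ⟨fun e => hy'.2 (e ▸ ha), hc⟩⟩
          · rintro ⟨ha, hb⟩
            exact ⟨ha, fun hc => hb hc.2⟩
        rw [h6, h7, card_erase_of_mem hy]
        have : 0 < (Z \ W).card := card_pos.2 ⟨y, hy⟩
        omega
      · have hx' := mem_sdiff.1 hx
        -- remove x from W or add y to W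
        by_cases hA : T (W.erase x)
        · have hT : Two T X (W.erase x) := by
            refine ⟨(erase_subset _ _).trans hW.1, hA, hup _ _ hW.2.2 ?_⟩
            exact sdiff_subset_sdiff (le_refl _) (erase_subset _ _)
          have h4 := (sig_erase (T := T) h0 hW.1 hx'.1).2
          have h5 := key _ hT
          refine ih Z (W.erase x) hZ hT h1 (by omega) ?_
          have h6 : W.erase x \ Z = (W \ Z).erase x := by
            ext z
            simp only [mem_sdiff, mem_erase]
            tauto
          have h7 : Z \ W.erase x = Z \ W := by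
            ext z
            simp only [mem_sdiff, mem_erase]
            constructor
            · rintro ⟨ha, hb⟩
              exact ⟨ha, fun hc => hb ⟨fun e => hx'.2 (e ▸ ha), hc⟩⟩
            · rintro ⟨ha, hb⟩
              exact ⟨ha, fun hc => hb hc.2⟩
          rw [h6, h7, card_erase_of_mem hx]
          have : 0 < (W \ Z).card := card_pos.2 ⟨x, hx⟩
          omega
        · by_cases hB : T ((X \ W).erase y)
          · have hT : Two T X (insert y W) := by
              refine ⟨?_, hup _ _ hW.2.1 (subset_insert _ _), ?_⟩
              · intro z hz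
                rcases mem_insert.1 hz with rfl | hz
                · exact hZ.1 hy'.1
                · exact hW.1 hz
              · rw [sdiff_insert']
                exact hB
            have h4 := (sig_insert (T := T) h0 (X := X) (Z := W) (x := y)).2
            have h5 := key _ hT
            refine ih Z (insert y W) hZ hT h1 (by omega) ?_
            have h6 : insert y W \ Z = W \ Z := by
              rw [insert_sdiff_of_mem _ hy'.1]
            have h7 : Z \ insert y W = (Z \ W).erase y := sdiff_insert'
            rw [h6, h7, card_erase_of_mem hy]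
            have : 0 < (Z \ W).card := card_pos.2 ⟨y, hy⟩
            omega
          · have h4 := nu_le_one hup hA
            have h5 := nu_le_one hup hB
            unfold sig at h2
            omega

/-- the orders of partitions into indivisible members form an interval -/
theorem interval (h0 : ¬ T ∅) (hup : ∀ X Y : Finset V, T X → X ⊆ Y → T Y) :
    ∀ (n : ℕ) (X : Finset V), X.card = n → ∀ a b k : ℕ, Part T X a → Part T X b → a ≤ k → k ≤ b →
      Part T X k := by
  intro n
  induction n using Nat.strong_induction_on with
  | _ n ih =>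
    intro X hn a b k ha hb hak hkb
    rcases hak.eq_or_lt with rfl | hak
    · exact ha
    rcases hkb.eq_or_lt with rfl | hkb
    · exact hb
    by_contra hk
    have nonempty_of : ∀ D, T D → 0 < D.card := fun D hD => by
      rw [card_pos, nonempty_iff_ne_empty]
      rintro rfl
      exact h0 hD
    -- the class above
    have hB : ∃ W, Two T X W ∧ k < sig T X W := by
      cases hb with
      | zero => omega
      | @succ D Y j hD hd hP =>
        obtain ⟨i, rfl⟩ : ∃ i, j = i + 1 := ⟨j - 1, by omega⟩
        have hY : T Y := hP.of_T hup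
        have e : (D ∪ Y) \ D = Y := union_sdiff_cancel_left hd
        refine ⟨D, ⟨subset_union_left, hD.1, by rw [e]; exact hY⟩, ?_⟩
        unfold sig
        rw [e]
        have h1 := one_le_nu h0 hD.1
        have h2 := le_nu h0 hP.toPack
        omega
    have hA : 2 ≤ k ∧ ∃ Z, Two T X Z ∧ sig T X Z < k := by
      cases ha with
      | zero =>
        exfalso
        have := hb.toPack.le_card h0
        rw [card_empty] at this
        omega
      | @succ D Y j hD hd hP =>
        rcases j with _ | j
        · exfalso
          cases hP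
          rw [union_empty] at hb
          have h1 := le_nu h0 hb.toPack
          rw [nu_ind h0 hup hD] at h1
          omega
        · have hY : T Y := hP.of_T hup
          have e : (D ∪ Y) \ D = Y := union_sdiff_cancel_left hd
          have hlt : Y.card < n := by
            rw [← hn, card_union_of_disjoint hd]
            have := nonempty_of D hD.1
            omega
          have h1 : nu T Y + 1 < k := by
            by_contra hc
            have h2 : Part T Y (k - 1) :=
              ih _ hlt Y rfl (j + 1) (nu T Y) (k - 1) hP (part_nu h0 hup hY) (by omega) (by omega)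
            have h3 := Part.succ hD hd h2
            rw [Nat.sub_add_cancel (by omega)] at h3
            exact hk h3
          refine ⟨by omega, D, ⟨subset_union_left, hD.1, by rw [e]; exact hY⟩, ?_⟩
          unfold sig
          rw [e, nu_ind h0 hup hD]
          omega
    obtain ⟨hk2, Z, hZ, hZk⟩ := hA
    obtain ⟨W, hW, hWk⟩ := hB
    exact no_pair h0 hup hk2 hk _ Z W hZ hW hZk hWk rfl

/-- from colourings to partitions -/
theorem part_of_color [Fintype V] {k : ℕ} (c : V → Fin k)
    (hc : ∀ i, Ind T (univ.filter fun v => c v = i)) : Part T univ k := by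
  have h : ∀ j : ℕ, j ≤ k → Part T (univ.filter fun v => (c v : ℕ) < j) j := by
    intro j
    induction j with
    | zero =>
      intro _
      have : (univ.filter fun v => (c v : ℕ) < 0) = ∅ := by
        ext v
        simp
      rw [this]
      exact Part.zero
    | succ j ih =>
      intro hj
      have h1 := ih (by omega)
      have h2 := hc ⟨j, hj⟩
      have h3 : Disjoint (univ.filter fun v => c v = ⟨j, hj⟩) (univ.filter fun v => (c v : ℕ) < j) := by
        rw [disjoint_left]
        intro v hv hv'
        rw [mem_filter] at hv hv'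
        rw [hv.2] at hv'
        exact absurd hv'.2 (lt_irrefl _)
      have h4 := Part.succ h2 h3 h1
      have h5 : (univ.filter fun v => c v = ⟨j, hj⟩) ∪ (univ.filter fun v => (c v : ℕ) < j)
          = univ.filter fun v => (c v : ℕ) < j + 1 := by
        ext v
        simp only [mem_union, mem_filter, mem_univ, true_and, Fin.ext_iff]
        omega
      rwa [h5] at h4
  have h6 := h k le_rfl
  have h7 : (univ.filter fun v => (c v : ℕ) < k) = univ := by
    ext v
    simp
  rwa [h7] at h6

/-- from partitions to colourings -/
theorem color_of_part {X : Finset V} {k : ℕ} (h : Part T X k) :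
    ∃ c : V → ℕ, (∀ v ∈ X, c v < k) ∧ ∀ i < k, Ind T (X.filter fun v => c v = i) := by
  induction h with
  | zero => exact ⟨fun _ => 0, fun v hv => absurd hv (notMem_empty v), fun i hi => absurd hi (by omega)⟩
  | @succ D X k hD hd _ ih =>
    obtain ⟨c, h1, h2⟩ := ih
    refine ⟨fun v => if v ∈ D then k else c v, ?_, ?_⟩
    · intro v hv
      by_cases h : v ∈ D
      · simp [h]
      · simp only [h, if_false]
        rcases mem_union.1 hv with h3 | h3
        · exact absurd h3 h
        · have := h1 v h3
          omega
    · intro i hi
      rcases Nat.lt_succ_iff_lt_or_eq.1 hi with h3 | rfl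
      · have e : ((D ∪ X).filter fun v => (if v ∈ D then k else c v) = i)
            = X.filter fun v => c v = i := by
          ext v
          simp only [mem_filter, mem_union]
          constructor
          · rintro ⟨h4, h5⟩
            by_cases h : v ∈ D
            · rw [if_pos h] at h5
              omega
            · rw [if_neg h] at h5
              exact ⟨h4.resolve_left h, h5⟩
          · rintro ⟨h4, h5⟩
            have h : v ∉ D := fun h => disjoint_left.1 hd h h4
            rw [if_neg h]
            exact ⟨Or.inr h4, h5⟩
        rw [e]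
        exact h2 i h3
      · have e : ((D ∪ X).filter fun v => (if v ∈ D then i else c v) = i) = D := by
          ext v
          simp only [mem_filter, mem_union]
          constructor
          · rintro ⟨h4, h5⟩
            by_contra h
            rw [if_neg h] at h5
            have := h1 v (h4.resolve_left h)
            omega
          · intro h
            rw [if_pos h]
            exact ⟨Or.inl h, rfl⟩
        rw [e]
        exact hD

end General

section Graph

variable {V : Type} [Fintype V] [DecidableEq V]

/-- `D` is a dominating set of `G` -/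
def IsDominating (G : SimpleGraph V) (D : Finset V) : Prop :=
  ∀ v, v ∉ D → ∃ w ∈ D, G.Adj v w

/-- a dominating set which is not the union of two disjoint nonempty dominating sets -/
def IsIndivisible (G : SimpleGraph V) (D : Finset V) : Prop :=
  IsDominating G D ∧ ¬ ∃ A B : Finset V, A.Nonempty ∧ B.Nonempty ∧ Disjoint A B ∧ A ∪ B = D ∧
    IsDominating G A ∧ IsDominating G B

/-- the vertex set has a partition into `k` nonempty classes all of which satisfy `P` -/
def HasPartition (P : Finset V → Prop) (k : ℕ) : Prop :=
  ∃ c : V → Fin k, ∀ i, (univ.filter fun v => c v = i).Nonempty ∧ P (univ.filter fun v => c v = i)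

/-- the domatic number -/
noncomputable def domaticNumber (G : SimpleGraph V) : ℕ :=
  sSup {m | HasPartition (IsDominating G) m}

/-- the adomatic number -/
noncomputable def adomaticNumber (G : SimpleGraph V) : ℕ :=
  sInf {m | HasPartition (IsIndivisible G) m}

theorem IsDominating.mono {G : SimpleGraph V} {X Y : Finset V} (h : IsDominating G X)
    (hXY : X ⊆ Y) : IsDominating G Y := by
  intro v hv
  obtain ⟨w, hw, ha⟩ := h v (fun h => hv (hXY h))
  exact ⟨w, hXY hw, ha⟩

theorem not_dominating_empty [Nonempty V] (G : SimpleGraph V) : ¬ IsDominating G ∅ := by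
  intro h
  obtain ⟨w, hw, _⟩ := h (Classical.arbitrary V) (notMem_empty _)
  exact notMem_empty w hw

theorem ind_iff [Nonempty V] (G : SimpleGraph V) (X : Finset V) :
    IsIndivisible G X ↔ Ind (IsDominating G) X := by
  have hne : ∀ A : Finset V, IsDominating G A → A.Nonempty := fun A hA => by
    rw [nonempty_iff_ne_empty]
    rintro rfl
    exact not_dominating_empty G hA
  constructor
  · rintro ⟨h1, h2⟩
    exact ⟨h1, fun A B hd he hA hB => h2 ⟨A, B, hne A hA, hne B hB, hd, he, hA, hB⟩⟩
  · rintro ⟨h1, h2⟩
    exact ⟨h1, fun ⟨A, B, _, _, hd, he, hA, hB⟩ => h2 A B hd he hA hB⟩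

theorem hasPartition_iff [Nonempty V] (G : SimpleGraph V) (k : ℕ) :
    HasPartition (IsIndivisible G) k ↔ Part (IsDominating G) univ k := by
  constructor
  · rintro ⟨c, hc⟩
    exact part_of_color c (fun i => (ind_iff G _).1 (hc i).2)
  · intro h
    obtain ⟨c, h1, h2⟩ := color_of_part h
    refine ⟨fun v => ⟨c v, h1 v (mem_univ v)⟩, fun i => ?_⟩
    have h3 := h2 i i.2
    have e : (univ.filter fun v => (⟨c v, h1 v (mem_univ v)⟩ : Fin k) = i)
        = univ.filter fun v => c v = i := by
      ext v
      simp [Fin.ext_iff]
    rw [e]
    refine ⟨?_, (ind_iff G _).2 h3⟩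
    rw [nonempty_iff_ne_empty]
    intro h4
    rw [h4] at h3
    exact not_dominating_empty G h3.1

end Graph

/-- **Interpolation theorem.**  For every finite graph and every `k` between the adomatic and the
domatic number there is a partition of the vertex set into `k` indivisible dominating sets. -/
theorem result : ∀ (V : Type) [Fintype V] [DecidableEq V] [Nonempty V] (G : SimpleGraph V) (k : ℕ),
    adomaticNumber G ≤ k → k ≤ domaticNumber G → HasPartition (IsIndivisible G) k := by
  intro V _ _ _ G k h1 h2
  have h0 := not_dominating_empty G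
  have hup : ∀ X Y : Finset V, IsDominating G X → X ⊆ Y → IsDominating G Y :=
    fun X Y h hXY => h.mono hXY
  rw [hasPartition_iff]
  have huniv : IsDominating G univ := fun v hv => absurd (mem_univ v) hv
  have hmax := part_nu h0 hup huniv
  -- adomatic number is attained
  have hne : {m | HasPartition (IsIndivisible G) m}.Nonempty :=
    ⟨_, (hasPartition_iff G _).2 hmax⟩
  have had : Part (IsDominating G) univ (adomaticNumber G) :=
    (hasPartition_iff G _).1 (Nat.sInf_mem hne)
  -- domatic number is at most `nu univ`
  have hdom : domaticNumber G ≤ nu (IsDominating G) univ := by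
    have hb : ∀ m ∈ {m | HasPartition (IsDominating G) m}, m ≤ nu (IsDominating G) univ := by
      rintro m ⟨c, hc⟩
      have h : ∀ j : ℕ, j ≤ m → Pack (IsDominating G) (univ.filter fun v => (c v : ℕ) < j) j := by
        intro j
        induction j with
        | zero => intro _; exact Pack.zero _
        | succ j ih =>
          intro hj
          refine Pack.succ (hc ⟨j, hj⟩).2 ?_ ((ih (by omega)).mono ?_)
          · intro v hv
            rw [mem_filter] at hv ⊢
            refine ⟨mem_univ v, ?_⟩
            rw [hv.2]
            exact Nat.lt_succ_self j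
          · intro v hv
            rw [mem_filter] at hv
            rw [mem_sdiff, mem_filter, mem_filter]
            refine ⟨⟨mem_univ v, by omega⟩, ?_⟩
            rintro ⟨_, h⟩
            rw [h] at hv
            exact absurd hv.2 (lt_irrefl _)
      exact le_nu h0 ((h m le_rfl).mono (subset_univ _))
    have hne' : {m | HasPartition (IsDominating G) m}.Nonempty := by
      obtain ⟨m, hm⟩ := hne
      obtain ⟨c, hc⟩ := hm
      exact ⟨m, c, fun i => ⟨(hc i).1, (hc i).2.1⟩⟩
    exact csSup_le hne' hb
  exact interval h0 hup _ univ rfl _ _ k had hmax h1 (h2.trans hdom)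

end Pool.Agent.Results.MP_a3f2aa_co.Interpolation
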